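import Pool.Agent.Helper8.SPV.Stmts2

/-!
# Functions on the generic fibre which are regular outside infinity
-/

set_option autoImplicit false

namespace Pool.Agent.Helper8.SPV

open Polynomial

/-- an element of all valuation rings over `A` is integral over `A` -/
theorem elx_int (A L : Type) [CommRing A] [Field L] [Algebra A L] (g : L)
    (h : ∀ V : ValuationSubring L, (∀ a : A, algebraMap A L a ∈ V) → g ∈ V) : IsIntegral A g := by
  let s : Set L := Set.range (algebraMap A L)
  have hs : (Subring.closure s) = (algebraMap A L).range := by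
    rw [show s = ((algebraMap A L).range : Set L) from rfl]
    exact Subring.closure_eq _
  have h1 : g ∈ (⨅ V : {V : ValuationSubring L // s ⊆ V.toSubring}, V.1.toSubring) := by
    rw [Subring.mem_iInf]
    rintro ⟨V, hV⟩
    exact h V fun a => hV ⟨a, rfl⟩
  rw [iInf_valuationSubring_superset] at h1
  have h2 : IsIntegral (Subring.closure s) g := h1
  have hmem : ∀ a : A, algebraMap A L a ∈ Subring.closure s := fun a =>
    Subring.subset_closure ⟨a, rfl⟩
  let f0 : A →+* Subring.closure s := (algebraMap A L).codRestrict _ hmem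
  let : Algebra A (Subring.closure s) := f0.toAlgebra
  have : IsScalarTower A (Subring.closure s) L := IsScalarTower.of_algebraMap_eq fun a => rfl
  have : Algebra.IsIntegral A (Subring.closure s) := by
    refine ⟨fun c => ?_⟩
    obtain ⟨a, ha⟩ : (c : L) ∈ (algebraMap A L).range := hs ▸ c.2
    have : c = algebraMap A (Subring.closure s) a := Subtype.ext ha.symm
    rw [this]
    exact isIntegral_algebraMap
  exact isIntegral_trans g h2

section ELX

variable {F : Type} [Field F]

/-- the right side of the Weierstrass equation -/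
noncomputable def elx_P (q : F) : F[X] := X ^ 3 + X + C q

theorem elx_deg (q : F) : (elx_P q).natDegree = 3 := by
  unfold elx_P
  compute_degree!

theorem elx_ne (q : F) : elx_P q ≠ 0 := by
  intro h
  have := elx_deg q
  rw [h, natDegree_zero] at this
  omega

theorem elx_sqfree [CharZero F] (q : F) (hq : 4 + 27 * q ^ 2 ≠ 0) : Squarefree (elx_P q) := by
  apply Separable.squarefree
  refine ⟨C (6 / (4 + 27 * q ^ 2)) * (-3 * X + C (9 / 2 * q)),
    C (6 / (4 + 27 * q ^ 2)) * (X ^ 2 - C (3 / 2 * q) * X + C (2 / 3)), ?_⟩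
  have h1 : derivative (elx_P q) = 3 * X ^ 2 + 1 := by
    unfold elx_P
    rw [derivative_add, derivative_add, derivative_C, derivative_X, derivative_X_pow]
    norm_num
    rfl
  rw [h1]
  unfold elx_P
  have e1 : C (6 / (4 + 27 * q ^ 2)) * (4 + 27 * C q ^ 2) = (6 : F[X]) := by
    have : (4 : F[X]) + 27 * C q ^ 2 = C (4 + 27 * q ^ 2) := by
      rw [C_add, C_mul, C_pow]
      rfl
    rw [this, ← C_mul, div_mul_cancel₀ _ hq]
    rfl
  have e2 : (2 : F[X]) * C (9 / 2 * q) = 9 * C q := by
    rw [show (2 : F[X]) = C 2 from rfl, show (9 : F[X]) = C 9 from rfl, ← C_mul, ← C_mul]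
    congr 1
    ring
  have e3 : (2 : F[X]) * C (3 / 2 * q) = 3 * C q := by
    rw [show (2 : F[X]) = C 2 from rfl, show (3 : F[X]) = C 3 from rfl, ← C_mul, ← C_mul]
    congr 1
    ring
  have e4 : (3 : F[X]) * C (2 / 3) = 2 := by
    rw [show (3 : F[X]) = C 3 from rfl, ← C_mul]
    rw [show (2 : F[X]) = C 2 from rfl]
    congr 1
    norm_num
  have h6 : (6 : F[X]) ≠ 0 := by
    rw [show (6 : F[X]) = C 6 from rfl]
    exact (_root_.map_ne_zero C).2 (by norm_num)
  have h6u : ∀ a : F[X], 6 * a = 6 → a = 1 := by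
    intro a ha
    exact mul_left_cancel₀ h6 (by rw [ha, mul_one])
  apply h6u
  generalize C (6 / (4 + 27 * q ^ 2)) = E at *
  generalize C (9 / 2 * q) = A at *
  generalize C (3 / 2 * q) = B at *
  generalize C (2 / 3 : F) = G at *
  generalize C q = Q at *
  linear_combination e1 + (3 * E * X ^ 3 + 3 * E * X + 3 * E * Q) * e2 -
    (9 * E * X ^ 3 + 3 * E * X) * e3 + (6 * E * X ^ 2 + 2 * E) * e4

/-- the right side is not a square -/
theorem elx_notsq (q : F) (a b : RatFunc F)
    (h : a ^ 2 = b ^ 2 * algebraMap F[X] (RatFunc F) (elx_P q)) : a = 0 ∧ b = 0 := by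
  have hP : algebraMap F[X] (RatFunc F) (elx_P q) ≠ 0 := by
    rw [Ne, FaithfulSMul.algebraMap_eq_zero_iff]
    exact elx_ne q
  by_cases hb : b = 0
  · rw [hb] at h
    refine ⟨?_, hb⟩
    have : a ^ 2 = 0 := by rw [h]; ring
    exact pow_eq_zero_iff (two_ne_zero) |>.1 this
  exfalso
  have ha : a ≠ 0 := by
    rintro rfl
    have h1 : b ^ 2 * algebraMap F[X] (RatFunc F) (elx_P q) = 0 := by rw [← h]; ring
    exact (mul_ne_zero (pow_ne_zero 2 hb) hP) h1
  have h1 := congrArg RatFunc.intDegree h
  rw [pow_two, pow_two, RatFunc.intDegree_mul ha ha,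
    RatFunc.intDegree_mul (mul_ne_zero hb hb) hP, RatFunc.intDegree_mul hb hb,
    RatFunc.intDegree_polynomial, elx_deg] at h1
  omega

variable {L : Type} [Field L] [Algebra F L] {q : F} {x y : L}

/-- the embedding of the field of rational functions -/
noncomputable def elx_phi (x : L) (hx : Transcendental F x) : RatFunc F →+* L :=
  IsFractionRing.lift (A := F[X]) (K := RatFunc F) (g := (aeval x : F[X] →ₐ[F] L).toRingHom)
    (transcendental_iff_injective.1 hx)

theorem elx_phi_poly (hx : Transcendental F x) (p : F[X]) :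
    elx_phi x hx (algebraMap F[X] (RatFunc F) p) = aeval x p := by
  unfold elx_phi
  rw [IsFractionRing.lift_algebraMap]
  rfl

/-- every function is `a + b y` -/
theorem elx_rep (hE : EL F L q x y) (g : L) :
    ∃ a b : RatFunc F, g = elx_phi x hE.tr a + elx_phi x hE.tr b * y := by
  have hP : y ^ 2 = elx_phi x hE.tr (algebraMap F[X] (RatFunc F) (elx_P q)) := by
    rw [elx_phi_poly, hE.eq]
    simp [elx_P]
  set φ := elx_phi x hE.tr with hφ
  let S : IntermediateField F L :=
    { carrier := {g | ∃ a b : RatFunc F, g = φ a + φ b * y}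
      mul_mem' := by
        rintro _ _ ⟨a, b, rfl⟩ ⟨a', b', rfl⟩
        refine ⟨a * a' + b * b' * algebraMap F[X] (RatFunc F) (elx_P q), a * b' + a' * b, ?_⟩
        simp only [map_add, map_mul, ← hP]
        ring
      add_mem' := by
        rintro _ _ ⟨a, b, rfl⟩ ⟨a', b', rfl⟩
        refine ⟨a + a', b + b', ?_⟩
        simp only [map_add]
        ring
      algebraMap_mem' := by
        intro c
        refine ⟨algebraMap F[X] (RatFunc F) (C c), 0, ?_⟩
        rw [hφ, elx_phi_poly]
        simp
      inv_mem' := by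
        rintro _ ⟨a, b, rfl⟩
        by_cases h0 : a ^ 2 - b ^ 2 * algebraMap F[X] (RatFunc F) (elx_P q) = 0
        · obtain ⟨rfl, rfl⟩ := elx_notsq q a b (sub_eq_zero.1 h0)
          exact ⟨0, 0, by simp⟩
        · refine ⟨a / (a ^ 2 - b ^ 2 * algebraMap F[X] (RatFunc F) (elx_P q)),
            -b / (a ^ 2 - b ^ 2 * algebraMap F[X] (RatFunc F) (elx_P q)), ?_⟩
          have h1 : φ (a ^ 2 - b ^ 2 * algebraMap F[X] (RatFunc F) (elx_P q)) ≠ 0 :=
            (map_ne_zero φ).2 h0
          have h2 : φ (a ^ 2 - b ^ 2 * algebraMap F[X] (RatFunc F) (elx_P q)) =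
              (φ a + φ b * y) * (φ a - φ b * y) := by
            simp only [map_sub, map_mul, map_pow, ← hP]
            ring
          rw [map_div₀, map_div₀, map_neg, h2]
          rw [h2] at h1
          obtain ⟨h3, h4⟩ := mul_ne_zero_iff.1 h1
          field_simp
          ring }
  have hS : IntermediateField.adjoin F {x, y} ≤ S := by
    rw [IntermediateField.adjoin_le_iff]
    rintro z (rfl | rfl)
    · refine ⟨algebraMap F[X] (RatFunc F) X, 0, ?_⟩
      rw [hφ, elx_phi_poly]
      simp
    · exact ⟨0, 1, by simp⟩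
  rw [hE.gen] at hS
  exact hS (IntermediateField.mem_top (x := g))

/-- functions regular outside infinity -/
theorem elx_B [CharZero F] (hE : EL F L q x y) (h : L)
    (hh : ∀ R : ValuationSubring L, (∀ c, algebraMap F L c ∈ R) → x ∈ R → h ∈ R) :
    ∃ α β : F[X], h = aeval x α + aeval x β * y := by
  have hP : y ^ 2 = elx_phi x hE.tr (algebraMap F[X] (RatFunc F) (elx_P q)) := by
    rw [elx_phi_poly, hE.eq]
    simp [elx_P]
  let algP : Algebra F[X] L := (aeval x : F[X] →ₐ[F] L).toRingHom.toAlgebra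
  let algK : Algebra (RatFunc F) L := (elx_phi x hE.tr).toAlgebra
  have tow : IsScalarTower F[X] (RatFunc F) L :=
    IsScalarTower.of_algebraMap_eq fun p => (elx_phi_poly hE.tr p).symm
  have hint : IsIntegral F[X] h := by
    refine elx_int F[X] L h fun V hV => hh V (fun c => ?_) ?_
    · have : (aeval x (C c) : L) ∈ V := hV (C c)
      rwa [aeval_C] at this
    · have : (aeval x (X : F[X]) : L) ∈ V := hV X
      rwa [aeval_X] at this
  have hmonic : (X ^ 2 - C (algebraMap F[X] (RatFunc F) (elx_P q)) : (RatFunc F)[X]).Monic :=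
    monic_X_pow_sub_C _ two_ne_zero
  have hroot : aeval y (X ^ 2 - C (algebraMap F[X] (RatFunc F) (elx_P q)) : (RatFunc F)[X]) =
      0 := by
    rw [map_sub, map_pow, aeval_X, aeval_C, hP]
    exact sub_self _
  have hy : IsIntegral (RatFunc F) y := ⟨_, hmonic, hroot⟩
  have hirr : Irreducible (X ^ 2 - C (algebraMap F[X] (RatFunc F) (elx_P q)) :
      (RatFunc F)[X]) := by
    refine X_pow_sub_C_irreducible_of_prime Nat.prime_two fun b hb => ?_
    have := (elx_notsq q b 1 (by rw [hb]; ring)).2
    exact one_ne_zero this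
  have hmin : minpoly (RatFunc F) y = X ^ 2 - C (algebraMap F[X] (RatFunc F) (elx_P q)) :=
    (minpoly.eq_of_irreducible_of_monic hirr hroot hmonic).symm
  have htop : Algebra.adjoin (RatFunc F) {y} = ⊤ := by
    rw [eq_top_iff]
    intro g _
    obtain ⟨a, b, hab⟩ := elx_rep hE g
    rw [hab]
    exact add_mem (Subalgebra.algebraMap_mem _ a)
      (mul_mem (Subalgebra.algebraMap_mem _ b) (Algebra.subset_adjoin rfl))
  let pb := PowerBasis.ofAdjoinEqTop hy htop
  have hgen : pb.gen = y := rfl
  have hneg : aeval (-y) (minpoly (RatFunc F) pb.gen) = 0 := by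
    rw [hgen, hmin, map_sub, map_pow, aeval_X, aeval_C, neg_sq, hP]
    exact sub_self _
  let τ : L →ₐ[RatFunc F] L := pb.lift (-y) hneg
  have hτ : τ y = -y := pb.lift_gen (-y) hneg
  obtain ⟨a, b, hab⟩ := elx_rep hE h
  have hab' : h = algebraMap (RatFunc F) L a + algebraMap (RatFunc F) L b * y := hab
  have hτh : τ h = algebraMap (RatFunc F) L a - algebraMap (RatFunc F) L b * y := by
    rw [hab', map_add, map_mul, hτ, AlgHom.commutes, AlgHom.commutes]
    ring
  have hint' : IsIntegral F[X] (τ h) := hint.map τ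
  have h2 : (2 : L) ≠ 0 := by
    have : CharZero L := charZero_of_injective_algebraMap (algebraMap F L).injective
    exact two_ne_zero
  have hinv : IsIntegral F[X] (algebraMap F L (1 / 2)) := by
    have : algebraMap F L (1 / 2) = algebraMap F[X] L (C (1 / 2)) := by
      show _ = (aeval x (C (1 / 2)) : L)
      rw [aeval_C]
    rw [this]
    exact isIntegral_algebraMap
  have hhalf : algebraMap F L (1 / 2) * 2 = 1 := by
    have : (2 : L) = algebraMap F L 2 := by rw [map_ofNat]
    rw [this, ← map_mul]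
    have h2F : (2 : F) ≠ 0 := two_ne_zero
    rw [one_div, inv_mul_cancel₀ h2F, map_one]
  have hinj : Function.Injective (algebraMap (RatFunc F) L) := (algebraMap (RatFunc F) L).injective
  have ha : IsIntegral F[X] a := by
    rw [← isIntegral_algebraMap_iff hinj]
    have : algebraMap (RatFunc F) L a = algebraMap F L (1 / 2) * (h + τ h) := by
      rw [hτh, hab']
      linear_combination (-algebraMap (RatFunc F) L a) * hhalf
    rw [this]
    exact hinv.mul (hint.add hint')
  have hb : IsIntegral F[X] (b ^ 2 * algebraMap F[X] (RatFunc F) (elx_P q)) := by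
    rw [← isIntegral_algebraMap_iff hinj]
    have : algebraMap (RatFunc F) L (b ^ 2 * algebraMap F[X] (RatFunc F) (elx_P q)) =
        (algebraMap F L (1 / 2) * (h - τ h)) ^ 2 := by
      rw [map_mul, map_pow]
      have e : algebraMap (RatFunc F) L (algebraMap F[X] (RatFunc F) (elx_P q)) = y ^ 2 := hP.symm
      have e2 : algebraMap F L (1 / 2) * (h - τ h) = algebraMap (RatFunc F) L b * y := by
        rw [hτh, hab']
        linear_combination (algebraMap (RatFunc F) L b * y) * hhalf
      rw [e, e2]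
      ring
    rw [this]
    exact (hinv.mul (hint.sub hint')).pow 2
  obtain ⟨α, hα⟩ := IsIntegrallyClosed.algebraMap_eq_of_integral ha
  obtain ⟨γ, hγ⟩ := IsIntegrallyClosed.algebraMap_eq_of_integral hb
  -- the denominator of `b` is a unit
  have hb' : ∃ β : F[X], algebraMap F[X] (RatFunc F) β = b := by
    obtain ⟨u, v, hv, huv, hcop⟩ : ∃ u v : F[X], v ≠ 0 ∧
        b * algebraMap F[X] (RatFunc F) v = algebraMap F[X] (RatFunc F) u ∧ IsCoprime u v := by
      refine ⟨b.num, b.denom, b.denom_ne_zero, ?_, b.isCoprime_num_denom⟩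
      have h3 := RatFunc.num_div_denom b
      have h4 : algebraMap F[X] (RatFunc F) b.denom ≠ 0 := by
        rw [Ne, FaithfulSMul.algebraMap_eq_zero_iff]
        exact b.denom_ne_zero
      exact ((div_eq_iff h4).1 h3).symm
    have h3 : u ^ 2 * elx_P q = γ * v ^ 2 := by
      apply FaithfulSMul.algebraMap_injective F[X] (RatFunc F)
      rw [map_mul, map_mul, map_pow, map_pow, hγ, ← huv]
      ring
    have h4 : v ^ 2 ∣ u ^ 2 * elx_P q := ⟨γ, by rw [h3]; ring⟩
    have h5 : v ^ 2 ∣ elx_P q := (hcop.symm.pow).dvd_of_dvd_mul_left h4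
    have h6 : IsUnit v := elx_sqfree q hE.disc v (by rw [← pow_two]; exact h5)
    obtain ⟨w, hw⟩ := h6.exists_right_inv
    refine ⟨u * w, ?_⟩
    rw [map_mul, ← huv, mul_assoc, ← map_mul, hw, map_one, mul_one]
  obtain ⟨β, hβ⟩ := hb'
  refine ⟨α, β, ?_⟩
  rw [hab, ← hα, ← hβ, elx_phi_poly, elx_phi_poly]

/-- a valuation ring at infinity -/
theorem elx_inf (hE : EL F L q x y) : ∃ R : ValuationSubring L,
    (∀ c, algebraMap F L c ∈ R) ∧ x ∉ R := by
  by_contra hc
  push Not at hc
  have h1 := elx_int F L x fun V hV => hc V hV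
  exact hE.tr h1.isAlgebraic

/-- constants have value one -/
theorem elx_vF (R : ValuationSubring L) (hF : ∀ c, algebraMap F L c ∈ R) (c : F) (hc : c ≠ 0) :
    R.valuation (algebraMap F L c) = 1 := by
  apply le_antisymm
  · rw [R.valuation_le_one_iff]
    exact hF c
  · have h1 : R.valuation (algebraMap F L c⁻¹) ≤ 1 := by
      rw [R.valuation_le_one_iff]
      exact hF c⁻¹
    rw [map_inv₀, map_inv₀] at h1
    have h2 : R.valuation (algebraMap F L c) ≠ 0 :=
      (Valuation.ne_zero_iff _).2 ((_root_.map_ne_zero _).2 hc)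
    exact (inv_le_one₀ (zero_lt_iff.2 h2)).1 h1

theorem elx_vx (R : ValuationSubring L) (hx : x ∉ R) : 1 < R.valuation x := by
  rw [← not_le, R.valuation_le_one_iff]
  exact hx

/-- the value of a polynomial -/
theorem elx_vp (R : ValuationSubring L) (hF : ∀ c, algebraMap F L c ∈ R) (hx : x ∉ R)
    (p : F[X]) (hp : p ≠ 0) :
    R.valuation (aeval x p) = R.valuation x ^ p.natDegree := by
  have h1 := elx_vx R hx
  have hlead : R.valuation (p.coeff p.natDegree • x ^ p.natDegree) =
      R.valuation x ^ p.natDegree := by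
    rw [Algebra.smul_def, map_mul, elx_vF R hF _ (by simpa using hp), one_mul, map_pow]
  rw [aeval_eq_sum_range, Finset.sum_range_succ, add_comm]
  rw [Valuation.map_add_eq_of_lt_left, hlead]
  rw [hlead]
  apply Valuation.map_sum_lt
  · exact pow_ne_zero _ (zero_lt_iff.1 (zero_lt_one.trans h1))
  · intro i hi
    rw [Algebra.smul_def, map_mul, map_pow]
    by_cases hc : p.coeff i = 0
    · rw [hc, map_zero, map_zero, zero_mul]
      exact pow_pos (zero_lt_one.trans h1) _
    · rw [elx_vF R hF _ hc, one_mul]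
      exact pow_lt_pow_right₀ h1 (Finset.mem_range.1 hi)

theorem elx_vy (hE : EL F L q x y) (R : ValuationSubring L) (hF : ∀ c, algebraMap F L c ∈ R)
    (hx : x ∉ R) : R.valuation y ^ 2 = R.valuation x ^ 3 := by
  have h1 : y ^ 2 = aeval x (elx_P q) := by
    rw [hE.eq]
    simp [elx_P]
  rw [← map_pow, h1, elx_vp R hF hx _ (elx_ne q), elx_deg]

/-- the possible orders at infinity -/
theorem elx_ord (hE : EL F L q x y) (R : ValuationSubring L) (hF : ∀ c, algebraMap F L c ∈ R)
    (hx : x ∉ R) (α β : F[X]) : (β = 0 ∧ α.natDegree = 0) ∨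
      ∃ k : ℕ, 2 ≤ k ∧ R.valuation (aeval x α + aeval x β * y) ^ 2 = R.valuation x ^ k := by
  have h1 := elx_vx R hx
  have hy := elx_vy hE R hF hx
  by_cases hβ : β = 0
  · subst hβ
    by_cases hα : α.natDegree = 0
    · exact Or.inl ⟨rfl, hα⟩
    · have hα0 : α ≠ 0 := by
        rintro rfl
        exact hα natDegree_zero
      refine Or.inr ⟨α.natDegree * 2, by omega, ?_⟩
      rw [map_zero, zero_mul, add_zero, elx_vp R hF hx α hα0, ← pow_mul]
  · have hb : R.valuation (aeval x β * y) ^ 2 = R.valuation x ^ (β.natDegree * 2 + 3) := by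
      rw [map_mul, mul_pow, hy, elx_vp R hF hx β hβ, ← pow_mul, ← pow_add]
    right
    by_cases hα : α = 0
    · subst hα
      exact ⟨β.natDegree * 2 + 3, by omega, by rw [map_zero, zero_add, hb]⟩
    · have ha : R.valuation (aeval x α) ^ 2 = R.valuation x ^ (α.natDegree * 2) := by
        rw [elx_vp R hF hx α hα, ← pow_mul]
      rcases lt_or_gt_of_ne (show α.natDegree * 2 ≠ β.natDegree * 2 + 3 by omega) with h2 | h2
      · have h3 : R.valuation (aeval x α) < R.valuation (aeval x β * y) := by
          apply lt_of_pow_lt_pow_left₀ 2 zero_le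
          rw [ha, hb]
          exact pow_lt_pow_right₀ h1 h2
        exact ⟨β.natDegree * 2 + 3, by omega, by
          rw [Valuation.map_add_eq_of_lt_right _ h3, hb]⟩
      · have h3 : R.valuation (aeval x β * y) < R.valuation (aeval x α) := by
          apply lt_of_pow_lt_pow_left₀ 2 zero_le
          rw [ha, hb]
          exact pow_lt_pow_right₀ h1 h2
        exact ⟨α.natDegree * 2, by omega, by
          rw [Valuation.map_add_eq_of_lt_left _ h3, ha]⟩

end ELX

/-- Module ELREG. -/
theorem st_ELREG : ST_ELREG := by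
  intro F L _ _ _ _ q x y hE g hg
  obtain ⟨α, β, hh⟩ := elx_B hE g (fun R hR _ => by
    by_cases ht : R = ⊤
    · rw [ht]
      exact ValuationSubring.mem_top g
    · exact hg R hR ht)
  obtain ⟨R, hF, hx⟩ := elx_inf hE
  have h1 := elx_vx R hx
  have hR : R ≠ ⊤ := by
    rintro rfl
    exact hx (ValuationSubring.mem_top x)
  have h2 : R.valuation g ≤ 1 := by
    rw [R.valuation_le_one_iff]
    exact hg R hF hR
  rcases elx_ord hE R hF hx α β with ⟨rfl, h3⟩ | ⟨k, hk, h3⟩
  · refine ⟨α.coeff 0, ?_⟩
    rw [hh, map_zero, zero_mul, add_zero]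
    conv_lhs => rw [eq_C_of_natDegree_eq_zero h3]
    rw [aeval_C]
  · exfalso
    rw [← hh] at h3
    have h4 : R.valuation g ^ 2 ≤ 1 := pow_le_one' h2 2
    rw [h3] at h4
    exact absurd h4 (not_le.2 (one_lt_pow₀ h1 (by omega)))

/-- Module ELKS. -/
theorem st_ELKS : ST_ELKS := by
  intro F L _ _ _ _ q x y hE δ0 Df Ds hD hδ h hfin hinf
  obtain ⟨α, β, hh⟩ := elx_B hE h (fun R hR hx => by
    by_cases ht : R = ⊤
    · rw [ht]
      exact ValuationSubring.mem_top h
    · exact hfin R hR ht hx)
  obtain ⟨R, hF, hx⟩ := elx_inf hE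
  have h1 := elx_vx R hx
  have hR : R ≠ ⊤ := by
    rintro rfl
    exact hx (ValuationSubring.mem_top x)
  have hy := elx_vy hE R hF hx
  have hx0 : R.valuation x ≠ 0 := (zero_lt_one.trans h1).ne'
  have hy0 : R.valuation y ≠ 0 := by
    intro h0
    rw [h0, zero_pow two_ne_zero] at hy
    exact pow_ne_zero 3 hx0 hy.symm
  have hy1 : y ≠ 0 := (Valuation.ne_zero_iff _).1 hy0
  -- the value of `Df Z`
  have hf : Df (x / y) = aeval x (-X ^ 3 + X + C (2 * q) : F[X]) / y ^ 2 := by
    rw [Derivation.leibniz_div, hD.Dfx, hD.Dfy]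
    simp only [map_add, map_neg, map_pow, aeval_X, aeval_C, smul_eq_mul, map_mul, map_ofNat]
    rw [inv_pow, eq_div_iff (pow_ne_zero 2 hy1), mul_comm, ← mul_assoc,
      mul_inv_cancel₀ (pow_ne_zero 2 hy1), one_mul]
    linear_combination 2 * hE.eq
  have hp1 : (-X ^ 3 + X + C (2 * q) : F[X]).natDegree = 3 := by compute_degree!
  have hvf : R.valuation (Df (x / y)) = 1 := by
    rw [hf, map_div₀, elx_vp R hF hx _ (by rintro h0; rw [h0, natDegree_zero] at hp1; omega), hp1,
      map_pow, hy]
    exact div_self (pow_ne_zero 3 hx0)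
  -- the value of `Ds Z`
  have hs : Ds (x / y) = algebraMap F L (δ0 q / (4 + 27 * q ^ 2)) *
      aeval x (C 3 * X ^ 2 - C (9 / 2 * q) * X - C 4 : F[X]) / y := by
    have e1 : algebraMap F L (δ0 q * 6 / (4 + 27 * q ^ 2)) =
        6 * algebraMap F L (δ0 q / (4 + 27 * q ^ 2)) := by
      rw [← map_ofNat (algebraMap F L) 6, ← map_mul]
      congr 1
      ring
    have e2 : algebraMap F L (δ0 q * 3 / (4 + 27 * q ^ 2)) =
        3 * algebraMap F L (δ0 q / (4 + 27 * q ^ 2)) := by
      rw [← map_ofNat (algebraMap F L) 3, ← map_mul]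
      congr 1
      ring
    have e3 : 2 * algebraMap F L (3 / 2 * q) = 3 * algebraMap F L q := by
      rw [← map_ofNat (algebraMap F L) 3, ← map_ofNat (algebraMap F L) 2, ← map_mul, ← map_mul]
      congr 1
      ring
    have e4 : 2 * algebraMap F L (9 / 2 * q) = 9 * algebraMap F L q := by
      rw [← map_ofNat (algebraMap F L) 9, ← map_ofNat (algebraMap F L) 2, ← map_mul, ← map_mul]
      congr 1
      ring
    have e5 : 3 * algebraMap F L (2 / 3) = 2 := by
      rw [← map_ofNat (algebraMap F L) 3, ← map_ofNat (algebraMap F L) 2, ← map_mul]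
      congr 1
      norm_num
    rw [Derivation.leibniz_div, hD.Dsx, hD.Dsy, e1, e2]
    simp only [map_sub, map_pow, map_mul (aeval x), aeval_X, aeval_C, smul_eq_mul, map_ofNat]
    have h2 : (2 : L) ≠ 0 := by
      have : CharZero L := charZero_of_injective_algebraMap (algebraMap F L).injective
      exact two_ne_zero
    generalize algebraMap F L (δ0 q / (4 + 27 * q ^ 2)) = E at *
    generalize algebraMap F L (3 / 2 * q) = A at *
    generalize algebraMap F L (9 / 2 * q) = B at *
    generalize algebraMap F L (2 / 3) = G at *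
    generalize algebraMap F L q = Q at *
    rw [inv_pow, inv_mul_eq_div, div_eq_div_iff (pow_ne_zero 2 hy1) hy1]
    apply mul_left_cancel₀ h2
    linear_combination (6 * E * x * y ^ 2) * e3 - (2 * E * x * y ^ 2) * e4 -
      (4 * E * y ^ 2) * e5
  have hp2 : (C 3 * X ^ 2 - C (9 / 2 * q) * X - C 4 : F[X]).natDegree = 2 := by
    compute_degree!
  have hE0 : δ0 q / (4 + 27 * q ^ 2) ≠ 0 := div_ne_zero hδ hE.disc
  have hvs : R.valuation (Ds (x / y)) ^ 2 = R.valuation x := by
    rw [hs, map_div₀, map_mul, elx_vF R hF _ hE0, one_mul,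
      elx_vp R hF hx _ (by rintro h0; rw [h0, natDegree_zero] at hp2; omega), hp2, div_pow, hy,
      ← pow_mul]
    rw [div_eq_iff (pow_ne_zero 3 hx0)]
    exact pow_succ' (R.valuation x) 3
  have hvq : R.valuation (Ds (x / y) / Df (x / y)) ^ 2 = R.valuation x := by
    rw [map_div₀, hvf, div_one, hvs]
  have hvq1 : 1 < R.valuation (Ds (x / y) / Df (x / y)) := by
    by_contra hc
    rw [not_lt] at hc
    have h4 : R.valuation (Ds (x / y) / Df (x / y)) ^ 2 ≤ 1 := pow_le_one' hc 2
    rw [hvq] at h4
    exact absurd h4 (not_le.2 h1)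
  have hd : R.valuation (h - Ds (x / y) / Df (x / y)) ≤ 1 := by
    rw [R.valuation_le_one_iff]
    exact hinf R hF hR hx
  have hvh : R.valuation h = R.valuation (Ds (x / y) / Df (x / y)) := by
    have e : h = (h - Ds (x / y) / Df (x / y)) + Ds (x / y) / Df (x / y) := by ring
    rw [e]
    exact Valuation.map_add_eq_of_lt_right _ (lt_of_le_of_lt hd hvq1)
  rcases elx_ord hE R hF hx α β with ⟨rfl, h3⟩ | ⟨k, hk, h3⟩
  · have h4 : R.valuation h ≤ 1 := by
      rw [R.valuation_le_one_iff, hh, map_zero, zero_mul, add_zero, eq_C_of_natDegree_eq_zero h3,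
        aeval_C]
      exact hF _
    rw [hvh] at h4
    exact absurd h4 (not_le.2 hvq1)
  · rw [← hh, hvh, hvq] at h3
    have h4 : R.valuation x ^ 1 < R.valuation x ^ k := pow_lt_pow_right₀ h1 (by omega)
    rw [pow_one, ← h3] at h4
    exact lt_irrefl _ h4

end Pool.Agent.Helper8.SPV

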