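import Pool.Agent.Helper41.SPV.ELX

/-!
# Module SPEC1: sections of rank one sheaves of one-forms
-/

set_option autoImplicit false

namespace Pool.Agent.Helper8.SPV

open IntermediateField (adjoin)

/-- a derivation over the integers which kills `k` is a derivation over `k` -/
theorem SPEC1_toK (k L : Type) [Field k] [Field L] [Algebra k L] (D : Derivation ℤ L L)
    (h : ∀ c : k, D (algebraMap k L c) = 0) : ∃ D' : Derivation k L L, ∀ f, D' f = D f := by
  refine ⟨Derivation.mk'
    { toFun := D
      map_add' := fun a b => map_add D a b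
      map_smul' := fun c f => ?_ } fun a b => D.leibniz a b, fun f => rfl⟩
  rw [Algebra.smul_def, D.leibniz, h, smul_zero, add_zero, RingHom.id_apply, smul_eq_mul]
  exact (Algebra.smul_def c (D f)).symm

/-- linear functionals on one-forms are determined by their values on exact forms -/
theorem SPEC1_ext (k L : Type) [Field k] [Field L] [Algebra k L] (l1 l2 : Om k L 1 →ₗ[L] L)
    (h : ∀ f : Fin 1 → L, l1 (dd k L 1 f) = l2 (dd k L 1 f)) : l1 = l2 := by
  have h1 : l1 ∘ₗ (exteriorPower.oneEquiv L (Ω[L⁄k])).symm.toLinearMap =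
      l2 ∘ₗ (exteriorPower.oneEquiv L (Ω[L⁄k])).symm.toLinearMap := by
    apply Derivation.liftKaehlerDifferential_unique
    apply Derivation.ext
    intro f
    have h2 := h (fun _ => f)
    have h3 : (exteriorPower.oneEquiv L (Ω[L⁄k])).symm (KaehlerDifferential.D k L f) =
        dd k L 1 (fun _ => f) := by
      rw [LinearEquiv.symm_apply_eq]
      unfold dd
      rw [exteriorPower.oneEquiv_ιMulti]
    show l1 ((exteriorPower.oneEquiv L (Ω[L⁄k])).symm (KaehlerDifferential.D k L f)) =
      l2 ((exteriorPower.oneEquiv L (Ω[L⁄k])).symm (KaehlerDifferential.D k L f))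
    rw [h3, h2]
  apply LinearMap.ext
  intro ω
  have h4 := LinearMap.congr_fun h1 (exteriorPower.oneEquiv L (Ω[L⁄k]) ω)
  simpa using h4

/-- roots in valuation rings -/
theorem SPEC1_root {L : Type} [Field L] (R : ValuationSubring L) (f : L) (m : ℕ) (hm : 1 ≤ m)
    (h : f ^ m ∈ R) : f ∈ R := by
  by_contra hc
  have h1 : 1 < R.valuation f := by
    rw [← not_le, R.valuation_le_one_iff]
    exact hc
  have h2 : R.valuation (f ^ m) ≤ 1 := by
    rw [R.valuation_le_one_iff]
    exact h
  rw [map_pow] at h2
  exact absurd h2 (not_le.2 (one_lt_pow₀ h1 (by omega)))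

/-- Module SPEC1. -/
theorem st_SPEC1 (hELD : ST_ELD) (hELB1 : ST_ELB1) (hELB2 : ST_ELB2) (hFUNC : ST_FUNC)
    (hOM : ST_OM) (hBASE : ST_BASE) (hGAUSS : ST_GAUSS) (hPL5 : ST_PL5) : ST_SPEC1 := by
  intro k L _ _ _ _ _ b t w x y hES hb v hv m hm g1 g2 hg1 hg2 hA1 hA2
  obtain ⟨hFF, tF, wF, qF, ht, hw, hq, hEL, δ0, hδt, hδw, hδq⟩ := hBASE k L b t w x y hES hb
  have : CharZero (adjoin k {t, w}) :=
    charZero_of_injective_algebraMap (algebraMap k (adjoin k {t, w})).injective
  have : CharZero L := charZero_of_injective_algebraMap (algebraMap k L).injective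
  obtain ⟨Df, Ds, hD⟩ := hELD (adjoin k {t, w}) L qF x y hEL (δ0.restrictScalars ℤ)
  obtain ⟨DfK, hDf⟩ := SPEC1_toK k L Df fun c => by
    rw [IsScalarTower.algebraMap_apply k (adjoin k {t, w}) L]
    exact hD.Df0 _
  obtain ⟨DsK, hDs⟩ := SPEC1_toK k L Ds fun c => by
    rw [IsScalarTower.algebraMap_apply k (adjoin k {t, w}) L, hD.Ds0]
    show algebraMap (adjoin k {t, w}) L (δ0 _) = 0
    rw [Derivation.map_algebraMap, map_zero]
  -- functionals
  have hlam : ∀ D : Derivation k L L, ∃ lam : Om k L 1 →ₗ[L] L,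
      (∀ f, lam (dd k L 1 f) = D (f 0)) ∧
      ∀ R : ValuationSubring L, (∀ f ∈ R, D f ∈ R) → ∀ ω ∈ forms k L 1 R.toSubring,
        lam ω ∈ R := by
    intro D
    obtain ⟨lam, h1, h2⟩ := hFUNC k L 1 (fun _ => D)
    refine ⟨lam, fun f => ?_, fun R hR => h2 R fun _ => hR⟩
    rw [h1]
    exact Matrix.det_fin_one _
  choose lam hlam1 hlam2 using hlam
  have hlin : ∀ (D1 D2 D3 : Derivation k L L) (u : L), (∀ f, D1 f = D2 f + u * D3 f) →
      lam D1 v = lam D2 v + u * lam D3 v := by
    intro D1 D2 D3 u h
    have h1 : lam D1 = lam D2 + u • lam D3 := by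
      apply SPEC1_ext
      intro f
      rw [LinearMap.add_apply, LinearMap.smul_apply, hlam1, hlam1, hlam1, h, smul_eq_mul]
    rw [h1, LinearMap.add_apply, LinearMap.smul_apply, smul_eq_mul]
  have hadm : ∀ g, Adm k L 1 v m g → ∀ R : ValuationSubring L,
      (∀ c : adjoin k {t, w}, algebraMap _ L c ∈ R) → ∀ D : Derivation k L L,
      (∀ f ∈ R, D f ∈ R) → g * lam D v ^ m ∈ R := by
    intro g hg R hR D hDR
    refine hg R (fun c => ?_) (lam D) (hlam2 D R hDR)
    rw [IsScalarTower.algebraMap_apply k (adjoin k {t, w}) L]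
    exact hR _
  -- the corrected derivation at infinity
  set u : L := Ds (x / y) / Df (x / y) with hu
  have hcor : lam (DsK - u • DfK) v = lam DsK v - u * lam DfK v := by
    rw [hlin (DsK - u • DfK) DsK DfK (-u) (fun f => by
      rw [Derivation.sub_apply, Derivation.smul_apply, smul_eq_mul]; ring)]
    ring
  have hcorR : ∀ R : ValuationSubring L, (∀ c : adjoin k {t, w}, algebraMap _ L c ∈ R) →
      R ≠ ⊤ → x ∉ R → ∀ f ∈ R, (DsK - u • DfK) f ∈ R := by
    intro R hR ht hx f hf
    rw [Derivation.sub_apply, Derivation.smul_apply, smul_eq_mul, hDf, hDs]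
    exact (hELB2 _ L qF x y hEL _ Df Ds hD R hR ht hx).2.2 f hf
  have hDfR : ∀ R : ValuationSubring L, (∀ c : adjoin k {t, w}, algebraMap _ L c ∈ R) →
      R ≠ ⊤ → ∀ f ∈ R, DfK f ∈ R := by
    intro R hR ht f hf
    rw [hDf]
    by_cases hx : x ∈ R
    · exact (hELB1 _ L qF x y hEL _ Df Ds hD R hR ht hx).1 f hf
    · exact (hELB2 _ L qF x y hEL _ Df Ds hD R hR ht hx).2.1 f hf
  have hDsR : ∀ R : ValuationSubring L, (∀ c : adjoin k {t, w}, algebraMap _ L c ∈ R) →
      R ≠ ⊤ → x ∈ R → ∀ f ∈ R, DsK f ∈ R := by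
    intro R hR ht hx f hf
    rw [hDs]
    exact (hELB1 _ L qF x y hEL _ Df Ds hD R hR ht hx).2 f hf
  -- the vertical part vanishes
  have hα : lam DfK v = 0 := by
    by_contra hα
    obtain ⟨c, hc⟩ := st_ELREG _ L qF x y hEL (g1 * lam DfK v ^ m) fun R hR ht =>
      hadm g1 hA1 R hR DfK (hDfR R hR ht)
    have hc0 : c ≠ 0 := by
      rintro rfl
      rw [map_zero] at hc
      exact mul_ne_zero hg1 (pow_ne_zero m hα) hc
    have hdiv : ∀ R : ValuationSubring L, (∀ c : adjoin k {t, w}, algebraMap _ L c ∈ R) →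
        ∀ β : L, g1 * β ^ m ∈ R → β / lam DfK v ∈ R := by
      intro R hR β hβ
      apply SPEC1_root R _ m hm
      have : (β / lam DfK v) ^ m = g1 * β ^ m * algebraMap _ L c⁻¹ := by
        rw [map_inv₀, ← hc, div_pow]
        have := pow_ne_zero m hα
        field_simp
      rw [this]
      exact R.mul_mem _ _ hβ (hR _)
    refine st_ELKS _ L qF x y hEL _ Df Ds hD hδq (lam DsK v / lam DfK v) ?_ ?_
    · intro R hR ht hx
      exact hdiv R hR _ (hadm g1 hA1 R hR DsK (hDsR R hR ht hx))
    · intro R hR ht hx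
      have h1 := hdiv R hR _ (hadm g1 hA1 R hR (DsK - u • DfK) (hcorR R hR ht hx))
      rw [hcor, sub_div, mul_div_assoc, div_self hα, mul_one] at h1
      exact h1
  -- nonvanishing of `w` and `y`
  have htr : Transcendental k t := by
    have := hES.indep.transcendental 0
    simpa using this
  have hw0 : w ≠ 0 := by
    rintro rfl
    have h1 := hES.pt.e1
    apply htr
    refine ⟨Polynomial.X ^ 3 + 1, ?_, ?_⟩
    · intro h0
      have := congrArg (Polynomial.eval 0) h0
      simp at this
    · simp only [map_add, map_pow, Polynomial.aeval_X, map_one]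
      rw [← h1]
      ring
  have hy0 : y ≠ 0 := by
    rintro rfl
    apply hEL.tr
    refine ⟨elx_P qF, elx_ne qF, ?_⟩
    have := hEL.eq
    simp only [elx_P, map_add, map_pow, Polynomial.aeval_X, Polynomial.aeval_C]
    rw [← this]
    ring
  have ht' : algebraMap (adjoin k {t, w}) L tF = t := ht
  have hw' : algebraMap (adjoin k {t, w}) L wF = w := hw
  have hDst : DsK t = 2 * w := by
    have h1 : Ds (algebraMap (adjoin k {t, w}) L tF) = algebraMap (adjoin k {t, w}) L (δ0 tF) :=
      hD.Ds0 tF
    rw [hδt, map_mul, ht', hw', map_ofNat] at h1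
    rw [hDs, h1]
  have hDsw : DsK w = 3 * t ^ 2 := by
    have h1 : Ds (algebraMap (adjoin k {t, w}) L wF) = algebraMap (adjoin k {t, w}) L (δ0 wF) :=
      hD.Ds0 wF
    rw [hδw, map_mul, map_pow, ht', hw', map_ofNat] at h1
    rw [hDs, h1]
  have hDft : DfK t = 0 := by
    have h1 := hD.Df0 tF
    rw [ht'] at h1
    rw [hDf, h1]
  have hDfw : DfK w = 0 := by
    have h1 := hD.Df0 wF
    rw [hw'] at h1
    rw [hDf, h1]
  have hDfx : DfK x = 2 * y := by rw [hDf, hD.Dfx]
  -- the horizontal part does not vanish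
  have hβ : lam DsK v ≠ 0 := by
    intro hβ
    have halg : Algebra.IsAlgebraic (adjoin k {t, x}) L := by
      refine ⟨fun f => ?_⟩
      have htm : t ∈ adjoin k {t, x} := IntermediateField.subset_adjoin _ _ (by simp)
      have hxm : x ∈ adjoin k {t, x} := IntermediateField.subset_adjoin _ _ (by simp)
      have halgm : ∀ f ∈ adjoin k {t, x}, IsAlgebraic (adjoin k {t, x}) f := fun f hf =>
        isAlgebraic_algebraMap (⟨f, hf⟩ : adjoin k {t, x})
      have hQ : Qf b t ∈ adjoin k {t, x} := by
        unfold Qf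
        exact sum_mem fun j _ => mul_mem (algebraMap_mem _ _) (pow_mem htm _)
      have hwa : IsAlgebraic (adjoin k {t, x}) w := by
        apply IsAlgebraic.of_pow (n := 2) (by norm_num)
        rw [hES.pt.e1]
        exact halgm _ (add_mem (pow_mem htm _) (one_mem _))
      have hya : IsAlgebraic (adjoin k {t, x}) y := by
        apply IsAlgebraic.of_pow (n := 2) (by norm_num)
        rw [hES.pt.e2]
        exact halgm _ (add_mem (add_mem (pow_mem hxm _) hxm) hQ)
      have h1 : adjoin k {t, w, x, y} ≤
          (algebraicClosure (adjoin k {t, x}) L).restrictScalars k := by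
        rw [IntermediateField.adjoin_le_iff]
        intro z hz
        have h2 : IsAlgebraic (adjoin k {t, x}) z := by
          rcases hz with h | h | h | h
          · rw [h]
            exact halgm _ htm
          · rw [h]
            exact hwa
          · rw [h]
            exact halgm _ hxm
          · rw [show z = y from h]
            exact hya
        exact mem_algebraicClosure_iff.2 h2
      rw [hES.gen] at h1
      exact mem_algebraicClosure_iff.1 (h1 (IntermediateField.mem_top (x := f)))
    have h1 := ((hOM k L t x hES.indep halg).2 DsK DfK (by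
      rw [hDst, hDfx, hDft, mul_zero, sub_zero]
      exact mul_ne_zero (mul_ne_zero two_ne_zero hw0) (mul_ne_zero two_ne_zero hy0))).1
      (lam DsK) (lam DfK) (hlam1 DsK) (hlam1 DfK) v hβ hα
    exact hv h1
  -- every lift of the derivation gives the same value
  have hE : ∀ D : Derivation k L L, D t = 2 * w → D w = 3 * t ^ 2 → lam D v = lam DsK v := by
    intro D hDt hDw
    have h2y : (2 : L) * y ≠ 0 := mul_ne_zero two_ne_zero hy0
    set u' : L := (D x - DsK x) / (2 * y) with hu'
    have hE0 : ∀ f, (D - DsK - u' • DfK) f = 0 := by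
      have hEt : (D - DsK - u' • DfK) t = 0 := by
        rw [Derivation.sub_apply, Derivation.sub_apply, Derivation.smul_apply, hDt, hDst, hDft,
          smul_zero, sub_zero, sub_self]
      have hEw : (D - DsK - u' • DfK) w = 0 := by
        rw [Derivation.sub_apply, Derivation.sub_apply, Derivation.smul_apply, hDw, hDsw, hDfw,
          smul_zero, sub_zero, sub_self]
      have hEx : (D - DsK - u' • DfK) x = 0 := by
        rw [Derivation.sub_apply, Derivation.sub_apply, Derivation.smul_apply, hDfx, smul_eq_mul,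
          hu', div_mul_cancel₀ _ h2y, sub_self]
      generalize D - DsK - u' • DfK = E at hEt hEw hEx
      have hEQ : E (Qf b t) = 0 := by
        unfold Qf
        rw [map_sum]
        apply Finset.sum_eq_zero
        intro j _
        rw [E.leibniz, E.map_algebraMap, E.leibniz_pow, hEt]
        simp
      have hEy : E y = 0 := by
        have h1 : E (y ^ 2) = 0 := by
          rw [hES.pt.e2, map_add, map_add, E.leibniz_pow, hEx, hEQ]
          simp
        rw [E.leibniz_pow] at h1
        have h3 : (2 * y) * E y = 0 := by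
          rw [← h1]
          simp [mul_assoc]
        exact (mul_eq_zero.1 h3).resolve_left h2y
      intro f
      have hf : f ∈ adjoin k {t, w, x, y} := by
        rw [hES.gen]
        exact IntermediateField.mem_top
      induction hf using IntermediateField.adjoin_induction with
      | mem z hz =>
        rcases hz with h | h | h | h
        · rw [h]
          exact hEt
        · rw [h]
          exact hEw
        · rw [h]
          exact hEx
        · rw [show z = y from h]
          exact hEy
      | algebraMap c => exact E.map_algebraMap c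
      | add a b _ _ ha hb => rw [map_add, ha, hb, add_zero]
      | inv a _ ha => rw [E.leibniz_inv, ha, smul_zero]
      | mul a b _ _ ha hb => rw [E.leibniz, ha, hb, smul_zero, smul_zero, add_zero]
    have h1 := hlin D DsK DfK u' fun f => by
      have h2 := hE0 f
      rw [Derivation.sub_apply, Derivation.sub_apply, Derivation.smul_apply, smul_eq_mul] at h2
      linear_combination h2
    rw [h1, hα, mul_zero, add_zero]
  -- the sections are constant
  have hfin : ∀ g, Adm k L 1 v m g → ∃ c : k, g * lam DsK v ^ m = algebraMap k L c := by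
    intro g hg
    obtain ⟨c, hc⟩ := st_ELREG _ L qF x y hEL (g * lam DsK v ^ m) fun R hR ht => by
      by_cases hx : x ∈ R
      · exact hadm g hg R hR DsK (hDsR R hR ht hx)
      · have h1 := hadm g hg R hR (DsK - u • DfK) (hcorR R hR ht hx)
        rw [hcor, hα, mul_zero, sub_zero] at h1
        exact h1
    obtain ⟨c', hc'⟩ := hPL5 k (adjoin k {t, w}) hFF c fun q => by
      obtain ⟨R, hRq, D, hDt, hDw, hDR⟩ := hGAUSS k L b t w x y hES q
      have h1 : g * lam D v ^ m ∈ R := by
        refine hg R (fun c => ?_) (lam D) (hlam2 D R hDR)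
        rw [IsScalarTower.algebraMap_apply k (adjoin k {t, w}) L]
        have h2 : algebraMap k (adjoin k {t, w}) c ∈ q.O := q.mem c
        rw [← hRq] at h2
        exact h2
      rw [hE D hDt hDw, hc] at h1
      rw [← hRq]
      exact h1
    refine ⟨c', ?_⟩
    rw [hc, hc', ← IsScalarTower.algebraMap_apply k (adjoin k {t, w}) L]
  obtain ⟨c1, hc1⟩ := hfin g1 hA1
  obtain ⟨c2, hc2⟩ := hfin g2 hA2
  refine ⟨c1 / c2, ?_⟩
  rw [map_div₀, ← hc1, ← hc2, mul_div_mul_right _ _ (pow_ne_zero m hβ)]

end Pool.Agent.Helper8.SPV
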